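import Pool.Agent.Results.MP_8707bd_ag.FunctionsOfGivenOrder
import Pool.Agent.U569.APL.Fat

/-!
# MP_8707bd_ag: the equivalence of Q1 for uniform fat points in the plane, multiplicities formed from arbitrary sets

Let a sequence (`j = 0, 1, 2, …`) of families of integers be given. The members of the `j`-th family are
`m = c₀ + y`, where `c₀` is an arbitrary integer (depending on `j`, of any size) and `y` is one of the following numbers:

* the representatives in `0, …, q - 1` of any family of residues modulo some `q` (depending on `j`) whose nontrivial Fourier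
  coefficients are at most `1 / (Z (42 + 3 log q))`, where `Z → ∞`, `Z ≤ q`;
* the residues `β(x, z) + u(x) + w(z)` modulo a prime `P → ∞`, where `β : k ^ a × k ^ b → k` is bilinear of rank at least
  `ρ`, `x` and `z` are in ARBITRARY sets `E` and `F` with `|E| |F| ≥ P ^ (a + b - ρ + δ)`, `u` and `w` are arbitrary
  functions (for `δ > 0` fixed); for example all the products `x z` of residues from two ARBITRARY sets with
  `|E| |F| ≥ P ^ (1 + δ)`;
* the values of polynomials in several variables of degree at most `P ^ (δ / 4)` with a monomial with at least two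
  variables, plus arbitrary functions of the single variables, on products of ARBITRARY sets of at least
  `P ^ (1 / 2 + δ)` residues;
* the values of polynomials in one variable of degree from `1` to `P ^ (δ / 4)` on any subgroup of the multiplicative group
  modulo `P` with at least `P ^ (1 / 2 + δ)` elements.

**Theorem.** (1) For every `r ≥ 10` and `ε > 0`, for large `j` all but at most `(bad r + ε) size` of the members `m ≥ 1` of
the `j`-th family are settled for `r` points: for a general set `Y` of `r` points of the plane and EVERY degree `d` the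
scheme `m Y` is `AH₂(d)`, the equivalence of Q1 holds, and no exceptional form divides all elements of `[I_Y ^ (m)]_d` if
this space is not zero; here `bad r < 1` is zero for `r ≥ 37`, for `r = 13, 21` and for the squares. (2) If the members are
positive for large `j`, then a positive proportion (at least `1 / 10000 ^ 22`) of the members is settled simultaneously for
EVERY number `r ≥ 10` of points.

Proof. The exceptional multiplicities `m` satisfy `α m + β ∈ [lo, hi]` modulo one, with a quadratic irrational number `α`
(starting library). The exponential sums `∑ e(θ m)` over the families are small for every real number `θ` which is not an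
integer, by completion (`N384.VF.char_le`); this gives the distribution of `α m` modulo one, and of all the numbers `√n m`,
`n` squarefree, at the same time (`U569/APL/Kron`).
-/

set_option autoImplicit false

namespace Pool.Agent.Results.MP_8707bd_ag.ArbitrarySets

open Filter
open Pool.Agent.Results.MP_8707bd_ag.FunctionsOfGivenOrder (Settled Holds bad settled_of holds_of)
open Pool.Agent.U569.APL

/-- **The equivalence of Q1 for multiplicities formed from arbitrary sets.** -/
theorem result :
    (∀ (τ : ℕ → Type) (s : ∀ j, Finset (τ j)) (v : ∀ j, τ j → Fin 1 → ℤ), FlatFamilies s v →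
      (∀ r : ℕ, 10 ≤ r → bad r < 1 ∧ ∀ ε : ℝ, 0 < ε → ∀ᶠ j in atTop,
        ({i : τ j | i ∈ s j ∧ 1 ≤ v j i 0 ∧ ¬ Settled r (v j i 0).toNat}.ncard : ℝ) ≤ (bad r + ε) * (s j).card) ∧
      ((∀ᶠ j in atTop, ∀ i ∈ s j, 1 ≤ v j i 0) → ∀ᶠ j in atTop, 1 / 10000 ^ 22 * ((s j).card : ℝ) ≤
        ({i : τ j | i ∈ s j ∧ Holds (v j i 0).toNat}.ncard : ℝ))) ∧
    Examples (Fin 1) := by
  refine ⟨fun τ s v hs => ⟨fun r hr => ⟨Pool.Agent.N141.SG.badU_lt hr, fun ε hε => ?_⟩, fun hpos => ?_⟩, examples _⟩
  · filter_upwards [flat_ex hs 0 hr hε] with j hj
    refine le_trans ?_ hj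
    have h1 : {i : τ j | i ∈ s j ∧ 1 ≤ v j i 0 ∧ ¬ Settled r (v j i 0).toNat} ⊆
        {i : τ j | i ∈ s j ∧ 1 ≤ v j i 0 ∧ ¬ Pool.Agent.N141.SG.Ex r (v j i 0).toNat} :=
      fun t ht => ⟨ht.1, ht.2.1, fun h2 => ht.2.2 (settled_of hr h2)⟩
    exact_mod_cast Set.ncard_le_ncard h1 ((Finset.finite_toSet (s j)).subset fun t ht => ht.1)
  · filter_upwards [flat_tgt hs 0, hpos] with j hj hp
    refine hj.trans ?_
    have h1 : {i : τ j | i ∈ s j ∧ Pool.Agent.N141.SG.Tgt (v j i 0)} ⊆
        {i : τ j | i ∈ s j ∧ Holds (v j i 0).toNat} := by
      rintro i ⟨hi, ht⟩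
      have h2 := hp i hi
      have h3 : (((v j i 0).toNat : ℕ) : ℤ) = v j i 0 := Int.toNat_of_nonneg (by linarith)
      exact ⟨hi, holds_of (by omega) (by rw [h3]; exact ht)⟩
    exact_mod_cast Set.ncard_le_ncard h1 ((Finset.finite_toSet (s j)).subset fun t ht => ht.1)

end Pool.Agent.Results.MP_8707bd_ag.ArbitrarySets
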