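import Mathlib
import Pool.Agent.U11.Irr3
import Pool.Agent.U11.Fam
import Pool.Agent.R724.SH.Beatty

set_option autoImplicit false

/-!
# The equivalence of Q1 for 11 and for 15 points: every multiplicity, every degree, up to a unique
irreducible curve

Let `r = 11` or `r = 15`, let `m ≥ 1` be ANY multiplicity and let `Y` be a general set of `r` points of
the complex projective plane (one nonempty open set for all degrees). In every degree `d` the scheme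
`m Y` is `AH₂(d)` and the equivalence of Q1 holds, or the space `[I_Y ^ (m)]_d` has dimension exactly
one although there are fewer monomials than conditions; for `r = 11` the form which spans it is then
irreducible with multiplicity exactly `m` at every point of `Y`. The second case is only possible if
`3 ∣ d` and `3 (√r - 3) / (√r + 3) ≤ d - √r m < (√r - 3) / 2`, and, given `ε > 0`, for large `m` only if
`m = ⌊3 j α⌋` and `d = 3 (m + j)` for some `j ≥ 1` for which the fractional part of `3 j α` lies between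
`1 / 2 - ε` and `1 / 2`, where `α = (√r + 3) / (r - 9)`. In every degree, no form exceptional for `Y`
divides all elements of `[I_Y ^ (m)]_d` when this space is not zero.
-/

namespace Pool.Agent.Results.MP_8707bd_ag.ExceptionsIrreducible

open MvPolynomial Pool.Agent.TH387.EX

/-- `α = (√r + 3) / (r - 9) = 1 / (√r - 3)` -/
noncomputable def alpha (r : ℕ) : ℝ := (Real.sqrt r + 3) / ((r : ℝ) - 9)

/-- the pair `(m, d)` is `(⌊3 j α⌋, 3 (m + j))` and the fractional part of `3 j α` lies between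
`1 / 2 - ε` and `1 / 2` -/
def Open (r : ℕ) (ε : ℝ) (m d : ℕ) : Prop :=
  ∃ j : ℕ, 1 ≤ j ∧ m = ⌊3 * (j : ℝ) * alpha r⌋₊ ∧ d = 3 * (m + j) ∧
    1 / 2 - ε < Int.fract (3 * (j : ℝ) * alpha r) ∧ Int.fract (3 * (j : ℝ) * alpha r) < 1 / 2

/-- `[I_Y ^ (m)]_d` is spanned by one form although the expected dimension is zero (with fewer monomials
than conditions), `3 ∣ d` and `(m, d)` lies in one short window; if `r = 11` that form is irreducible
with multiplicity exactly `m` at every point of `Y` -/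
def Single {r : ℕ} (Y : Fin r → Fin 2 → ℂ) (m d : ℕ) : Prop :=
  3 ∣ d ∧ 3 * (√(r : ℝ) - 3) ≤ (√(r : ℝ) + 3) * (d - √(r : ℝ) * m) ∧
    (d : ℝ) - √(r : ℝ) * m < (√(r : ℝ) - 3) / 2 ∧ (d + 2).choose 2 < r * (m + 1).choose 2 ∧
    Module.finrank ℂ ↥(part (fat Y m) d) = 1 ∧
    (r = 11 → ∀ F ∈ part (fat Y m) d, F ≠ 0 →
      Irreducible F ∧ ∀ i, F ∈ pointIdeal (Y i) ^ m ∧ F ∉ pointIdeal (Y i) ^ (m + 1))

/-- the window in terms of fractional parts -/
theorem open_of {r m d : ℕ} (hr : 10 ≤ r) {ε : ℝ} (h3 : 3 ∣ d)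
    (h0 : √(r : ℝ) * m < d)
    (h1 : (√(r : ℝ) - 3) / 2 - ε * (√(r : ℝ) - 3) < (d : ℝ) - √(r : ℝ) * m)
    (h2 : (d : ℝ) - √(r : ℝ) * m < (√(r : ℝ) - 3) / 2) : Open r ε m d := by
  have hs := R724.SH.sqrt_gt hr
  obtain ⟨j, hj, hj1, hj2, hj3⟩ := R724.SH.beatty3 hr h3 h0 (by linarith)
  refine ⟨j, hj, hj1, hj3, ?_, hj2⟩
  have hα := R724.SH.alpha_mul hr
  have hα0 := R724.SH.alpha_pos hr
  have h5 : Int.fract (3 * (j : ℝ) * R724.SH.alpha r) = 3 * (j : ℝ) * R724.SH.alpha r - m := by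
    have h6 : (0 : ℝ) ≤ 3 * (j : ℝ) * R724.SH.alpha r := by positivity
    have h7 : (⌊3 * (j : ℝ) * R724.SH.alpha r⌋ : ℤ) = (m : ℤ) := by
      rw [hj1]
      exact (Int.natCast_floor_eq_floor h6).symm
    unfold Int.fract
    rw [h7]
    simp
  have h6 : (d : ℝ) - √(r : ℝ) * m = (√(r : ℝ) - 3) *
      Int.fract (3 * (j : ℝ) * R724.SH.alpha r) := by
    rw [h5, hj3]
    push_cast
    linear_combination (-3 * (j : ℝ)) * hα
  rw [h6] at h1
  have h7 : (√(r : ℝ) - 3) * (1 / 2 - ε) < (√(r : ℝ) - 3) *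
      Int.fract (3 * (j : ℝ) * R724.SH.alpha r) := by linarith
  exact lt_of_mul_lt_mul_left h7 (by linarith)

theorem result (r : ℕ) (hr : r = 11 ∨ r = 15) (ε : ℝ) (hε : 0 < ε) :
    ∃ m₀ : ℕ, ∀ m : ℕ, 1 ≤ m →
    ∃ Φ : MvPolynomial (Fin r × Fin 2) ℂ, Φ ≠ 0 ∧ ∀ Y : Fin r → Fin 2 → ℂ,
      MvPolynomial.eval (fun ij : Fin r × Fin 2 => Y ij.1 ij.2) Φ ≠ 0 → ∀ d : ℕ,
        ((IsAH Y m d ∧ Equivalence Y m d) ∨ (Single Y m d ∧ (m₀ ≤ m → Open r ε m d))) ∧
          (part (fat Y m) d ≠ ⊥ → ∀ F, IsExceptional Y F → ∃ G ∈ part (fat Y m) d, ¬ F ∣ G) := by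
  have hr10 : 10 ≤ r := by omega
  have hs := R724.SH.sqrt_gt hr10
  obtain ⟨m₀, hm₀⟩ := U11.uniform4 (n := r) (ε := ε * (√(r : ℝ) - 3)) (by omega)
    (mul_pos hε (by linarith))
  refine ⟨m₀, fun m hm => ?_⟩
  -- the dimensions
  obtain ⟨F1, hF1, h1⟩ := U11.uniform_dims' (n := r) (by omega) hm
  -- large multiplicities
  have p2 : ∃ F : MvPolynomial (Fin r × Fin 2) ℚ, F ≠ 0 ∧
      ∀ (P : Fin r → Fin 2 → ℂ), MvPolynomial.aeval (fun ij : Fin r × Fin 2 => P ij.1 ij.2) F ≠ 0 →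
      ∀ d : ℕ, m₀ ≤ m → (3 ∣ d ∧ (d : ℝ) - √(r : ℝ) * m ≤ (√(r : ℝ) - 3) / 2 -
        ε * (√(r : ℝ) - 3)) → Pool.Agent.H932R3.ExpDim ℂ (fun _ => m) P d := by
    by_cases hm0 : m₀ ≤ m
    · obtain ⟨F, hF, hF'⟩ := hm₀ m hm0
      exact ⟨F, hF, fun P hP d _ hd => hF' P hP d (Or.inr (Or.inl hd))⟩
    · exact ⟨1, one_ne_zero, fun P _ d hd => absurd hd hm0⟩
  obtain ⟨F2, hF2, h2⟩ := p2
  -- irreducibility
  have p3 : ∃ F : MvPolynomial (Fin r × Fin 2) ℚ, F ≠ 0 ∧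
      ∀ (P : Fin r → Fin 2 → ℂ), MvPolynomial.aeval (fun ij : Fin r × Fin 2 => P ij.1 ij.2) F ≠ 0 →
      ∀ d : ℕ, r = 11 → (d : ℝ) - √(r : ℝ) * m < (√(r : ℝ) - 3) / 2 →
        ∀ f ∈ part (fat P m) d, f ≠ 0 → Irreducible f ∧ ∀ i, f ∉ pointIdeal (P i) ^ (m + 1) := by
    by_cases h11 : r = 11
    · subst h11
      obtain ⟨F, hF, hF'⟩ := U11.irr_open hm
      refine ⟨F, hF, fun P hP d _ hd f hf hf0 => hF' P hP d ?_ f hf hf0⟩
      push_cast at hd
      have hsq := Pool.Agent.TH864.SX.sq11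
      have h4 : √(11 : ℝ) * (2 * ((d : ℝ) - √(11 : ℝ) * m)) < √(11 : ℝ) * (√(11 : ℝ) - 3) :=
        mul_lt_mul_of_pos_left (by linarith) (by push_cast at hs; linarith)
      have h5 : √(11 : ℝ) * (2 * ((d : ℝ) - √(11 : ℝ) * m)) =
        √(11 : ℝ) * (2 * d + 3) - 3 * √(11 : ℝ) - 22 * m := by
        linear_combination (-2 * (m : ℝ)) * hsq
      have h6 : √(11 : ℝ) * (√(11 : ℝ) - 3) = 11 - 3 * √(11 : ℝ) := by
        linear_combination hsq
      rw [h5, h6] at h4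
      linarith
    · exact ⟨1, one_ne_zero, fun P _ d hd => absurd hd h11⟩
  obtain ⟨F3, hF3, h3⟩ := p3
  -- the equivalence
  obtain ⟨Φ, hΦ, h4⟩ := core hr10 (S := ∅) (m := m)
    ⟨1, one_ne_zero, fun P _ d hd => absurd hd (Set.notMem_empty d)⟩
  refine ⟨Φ * ((F1 * F2 * F3).map (algebraMap ℚ ℂ)), mul_ne_zero hΦ
    (H932R3.map_ne_zero_of (mul_ne_zero (mul_ne_zero hF1 hF2) hF3)), fun Y hY d => ?_⟩
  rw [map_mul] at hY
  have hY4 := left_ne_zero_of_mul hY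
  have hY' := right_ne_zero_of_mul hY
  rw [MvPolynomial.eval_map] at hY'
  have hY'' : MvPolynomial.aeval (fun ij : Fin r × Fin 2 => Y ij.1 ij.2) (F1 * F2 * F3) ≠ 0 := hY'
  rw [map_mul, map_mul] at hY''
  have hY3 := right_ne_zero_of_mul hY''
  have hY2 := right_ne_zero_of_mul (left_ne_zero_of_mul hY'')
  have hY1 := left_ne_zero_of_mul (left_ne_zero_of_mul hY'')
  obtain ⟨-, hiff, hno⟩ := h4 Y hY4
  refine ⟨?_, hno d⟩
  have hgood : Module.finrank ℂ ↥(part (fat Y m) d) = (d + 2).choose 2 - r * (m + 1).choose 2 →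
      IsAH Y m d ∧ Equivalence Y m d := by
    intro h5
    have h6 : IsAH Y m d := by
      unfold IsAH hilb
      rw [h5, TH603.Sur.finrank_forms]
      omega
    exact ⟨h6, (hiff d).2 h6⟩
  rcases h1 Y hY1 d (by omega) with h5 | ⟨g1, g2, g3, g4, g5⟩
  · exact Or.inl (hgood h5)
  have hwin : (d : ℝ) - √(r : ℝ) * m < (√(r : ℝ) - 3) / 2 := by linarith
  have hlow : √(r : ℝ) * m < d := by
    by_contra hcon
    push Not at hcon
    have h6 : (√(r : ℝ) + 3) * (d - √(r : ℝ) * m) ≤ 0 :=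
      mul_nonpos_of_nonneg_of_nonpos (by linarith) (by linarith)
    linarith
  by_cases h6 : m₀ ≤ m ∧ (d : ℝ) - √(r : ℝ) * m ≤ (√(r : ℝ) - 3) / 2 - ε * (√(r : ℝ) - 3)
  · left
    apply hgood
    have h7 := h2 Y hY2 d h6.1 ⟨g1, h6.2⟩
    unfold Pool.Agent.H932R3.ExpDim at h7
    rw [Finset.sum_const, Finset.card_univ, Fintype.card_fin, smul_eq_mul] at h7
    exact h7
  · right
    refine ⟨⟨g1, g2, hwin, g4, g5, fun h11 F hF hF0 => ?_⟩, fun hm0 => ?_⟩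
    · obtain ⟨k1, k2⟩ := h3 Y hY3 d h11 hwin F hF hF0
      exact ⟨k1, fun i => ⟨(mem_V.1 hF).2 i, k2 i⟩⟩
    · apply open_of hr10 g1 hlow _ hwin
      by_contra hcon
      push Not at hcon
      exact h6 ⟨hm0, hcon⟩

end Pool.Agent.Results.MP_8707bd_ag.ExceptionsIrreducible
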