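import Pool.Agent.U828.KD.SH
import Pool.Agent.TH387.EX.Core

/-!
# The equivalence of Q1 for multiplicities given by arbitrary functions of a given order

Let `f` be an ARBITRARY function on the natural numbers of some order `c > 0`: for one `d > c` the differences of
order `d` of `f` have a constant sign and are `t ^ (c - d + o(1))` in absolute value. There is no smoothness and no formula; examples are `t ^ c` with `c` not an integer, `t ^ j log t`, the functions of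
a Hardy field with the same growth, all these plus arbitrary real polynomials of degree below the order of the
differences, and irregular functions.

**Theorem.** Let `m = ⌊f t⌋`. (1) For every `r ≥ 10`, all but at most `bad r * N + N ^ (1 - κ)` of the integers `t` in
`(N, 2 N]` with `f t ≥ 1` are such that for a general set `Y` of `r` points and EVERY degree `e` the scheme `m Y` is
`AH₂(e)` and the equivalence of Q1 holds; here `κ = κ(r, f) > 0`, and `bad r < 1` is zero for `r ≥ 37`, for `r = 13, 21`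
and for the squares. (2) If `f t ≥ 1` for large `t`, then for a positive proportion of the `t` in `(N, 2 N]`, `N` large,
this is true simultaneously for EVERY number `r ≥ 10` of points.

The starting file `EquivalenceThinSequences` has the second part for generalised polynomials with non-integral leading
exponents. The new ingredient is a derivative test for arbitrary functions (`Pool.Agent.U828.KD.order_exp`), in (1) with
an error which is a power of `N`.
-/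

set_option autoImplicit false

namespace Pool.Agent.Results.MP_8707bd_ag.FunctionsOfGivenOrder

open MvPolynomial Filter Pool.Agent.TH387.EX

/-- For a general set `Y` of `r` points (one nonempty open set) and every degree `d`: the scheme `m Y`
is `AH₂(d)`, the equivalence of Q1 holds, and no exceptional form divides all elements of
`[I_Y ^ (m)]_d` if this space is not zero. -/
def Settled (r m : ℕ) : Prop :=
  ∃ Φ : MvPolynomial (Fin r × Fin 2) ℂ, Φ ≠ 0 ∧ ∀ Y : Fin r → Fin 2 → ℂ,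
    MvPolynomial.eval (fun ij : Fin r × Fin 2 => Y ij.1 ij.2) Φ ≠ 0 →
      ∀ d : ℕ, IsAH Y m d ∧ Equivalence Y m d ∧
        (part (fat Y m) d ≠ ⊥ → ∀ F, IsExceptional Y F → ∃ G ∈ part (fat Y m) d, ¬ F ∣ G)

/-- The multiplicity `m ≥ 1` is settled for every number `r ≥ 10` of points. -/
def Holds (m : ℕ) : Prop := 1 ≤ m ∧ ∀ r : ℕ, 10 ≤ r → Settled r m

/-- The differences of order `d` of `f` have a constant sign and are `t ^ (c - d + o(1))` in absolute value. -/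
def Order (d : ℕ) (c : ℝ) (f : ℕ → ℝ) : Prop :=
  ∀ ε : ℝ, 0 < ε → ∃ T : ℕ,
    (∀ t : ℕ, T ≤ t → (t : ℝ) ^ (c - d - ε) ≤ (fwdDiff 1)^[d] f t ∧
      (fwdDiff 1)^[d] f t ≤ (t : ℝ) ^ (c - d + ε)) ∨
    (∀ t : ℕ, T ≤ t → (t : ℝ) ^ (c - d - ε) ≤ -(fwdDiff 1)^[d] f t ∧
      -(fwdDiff 1)^[d] f t ≤ (t : ℝ) ^ (c - d + ε))

open Classical in
/-- The bound for the proportion of the bad multiplicities for `r` points. -/
noncomputable def bad (r : ℕ) : ℝ :=
  if 37 ≤ r ∨ r = 13 ∨ r = 21 ∨ IsSquare r then 0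
  else if r = 11 ∨ r = 15 then (√(r : ℝ) - 3) / 6
  else (min (√(r : ℝ) - 3) (2 / 3 + 9 / (4 * √(r : ℝ))) +
    min (√(r : ℝ) - 3) (2 / 3 + 1 / (4 * √(r : ℝ)))) / 2

theorem settled_of {r m : ℕ} (hr : 10 ≤ r) (h : Pool.Agent.N141.SG.Ex r m) : Settled r m := by
  obtain ⟨F, hF, hF'⟩ := h
  obtain ⟨Φ, hΦ, hΦ'⟩ := core hr (S := Set.univ) ⟨F, hF, fun P hP d _ => hF' P hP d⟩
  refine ⟨Φ, hΦ, fun Y hY d => ?_⟩
  obtain ⟨h1, _, h3⟩ := hΦ' Y hY
  exact ⟨(h1 d (Set.mem_univ d)).1, (h1 d (Set.mem_univ d)).2, h3 d⟩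

theorem holds_of {m : ℕ} (hm : 1 ≤ m) (h : Pool.Agent.N141.SG.Tgt (m : ℕ)) : Holds m :=
  ⟨hm, fun _ hr => settled_of hr (Pool.Agent.N141.SG.every h hm hr)⟩

/-- **The equivalence of Q1 along arbitrary functions of a given order.** -/
theorem result (d : ℕ) (c : ℝ) (hd : 2 ≤ d) (hc0 : 0 < c) (hcd : c < d) (f : ℕ → ℝ) (hf : Order d c f) :
    (∀ r : ℕ, 10 ≤ r → bad r < 1 ∧ ∃ κ : ℝ, 0 < κ ∧ ∃ N₀ : ℕ, ∀ N : ℕ, N₀ ≤ N →
      ({t : ℕ | t ∈ Finset.Ioc N (2 * N) ∧ 1 ≤ f t ∧ ¬ Settled r ⌊f t⌋₊}.ncard : ℝ) ≤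
        bad r * N + (N : ℝ) ^ (1 - κ)) ∧
    ((∀ᶠ t : ℕ in atTop, 1 ≤ f t) → ∀ᶠ N : ℕ in atTop, 1 / 10000 ^ 22 * (N : ℝ) ≤
      ({t : ℕ | t ∈ Finset.Ioc N (2 * N) ∧ Holds ⌊f t⌋₊}.ncard : ℝ)) := by
  refine ⟨fun r hr => ⟨Pool.Agent.N141.SG.badU_lt hr, ?_⟩, fun hpos => ?_⟩
  · obtain ⟨κ, hκ, N₀, h⟩ := Pool.Agent.U828.KD.one_order d hd c hc0 hcd f hf hr
    refine ⟨κ, hκ, N₀, fun N hN => le_trans ?_ (h N hN)⟩
    have h1 : {t : ℕ | t ∈ Finset.Ioc N (2 * N) ∧ 1 ≤ f t ∧ ¬ Settled r ⌊f t⌋₊} ⊆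
        {t : ℕ | t ∈ Finset.Ioc N (2 * N) ∧ 1 ≤ f t ∧ ¬ Pool.Agent.N141.SG.Ex r ⌊f t⌋₊} :=
      fun t ht => ⟨ht.1, ht.2.1, fun h2 => ht.2.2 (settled_of hr h2)⟩
    exact_mod_cast Set.ncard_le_ncard h1 ((Finset.finite_toSet (Finset.Ioc N (2 * N))).subset fun t ht => ht.1)
  · filter_upwards [Pool.Agent.U828.KD.tgt_order d hd c hc0 hcd f hf hpos] with N hN
    refine hN.trans ?_
    have h1 : {t : ℕ | t ∈ Finset.Ioc N (2 * N) ∧ 1 ≤ ⌊f t⌋₊ ∧ Pool.Agent.N141.SG.Tgt (⌊f t⌋₊ : ℕ)} ⊆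
        {t : ℕ | t ∈ Finset.Ioc N (2 * N) ∧ Holds ⌊f t⌋₊} :=
      fun t ht => ⟨ht.1, holds_of ht.2.1 ht.2.2⟩
    exact_mod_cast Set.ncard_le_ncard h1 ((Finset.finite_toSet (Finset.Ioc N (2 * N))).subset fun t ht => ht.1)

end Pool.Agent.Results.MP_8707bd_ag.FunctionsOfGivenOrder
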