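import Pool.Agent.U449.BV.Q
import Pool.Agent.Results.MP_8707bd_ag.MostMultiplicities

/-!
# Uniform fat points: multiplicities near the values of polynomials on arbitrary dense sets

Let `p` be a prime and `f(x, y)` ANY polynomial modulo `p` of degree at most `d` with a monomial which contains both variables (for
example `f = x y`), let `A`, `B` be ARBITRARY sets of residues modulo `p`, `g`, `h` ARBITRARY functions, and `1 ≤ W ≤ p`.
For all but `Θ |A| |B|` of the pairs `(a, b)` in `A × B`, where `Θ ^ 2 = C d e(p) (p / |A| + W p / |B|)`, `Θ` arbitrarily small for dense sets and bounded `W` (see the theorem),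
for ALL multiplicities `m ≥ 1` at a distance of at most `W` from the least residue of `f(a, b) + g(a) + h(b)` the scheme `m Y` of
`r` general points is `AH₂(d)` for every degree `d`.
So this holds for almost all pairs if `A`, `B` are dense and `W` is small in the same sense as the set of the exceptions is sparse.
More generally, this holds for all functions `F(a, b)` with few coincidences (`Rare`).

Since the sets and the functions `g` and `h` are arbitrary, the values have no arithmetic structure, and a value may be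
taken by very many pairs. So the number of the exceptions (starting library) does not give the result directly. Proof: the
inequality of Cauchy and Schwarz; for most pairs `a, a'` the difference `F(a, b) - F(a', b)` is small for few `b`
(`Pool.Agent.U449.BV`).
-/

set_option autoImplicit false

namespace Pool.Agent.Results.MP_8707bd_ag.MixedOnDenseSets

open Finset
open Pool.Agent.U449.BV (Rare dense_window residues)
open Pool.Agent.Results.MP_8707bd_ag.MostMultiplicities (AllDegrees)

/-- For ALL integers `m ≥ 1` with `|m - x| ≤ W` the scheme `m Y` of `r` general points of the plane is `AH₂(d)` for every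
degree `d`. -/
def Near (r : ℕ) (W x : ℝ) : Prop :=
  ∀ m : ℕ, 1 ≤ m → |(m : ℝ) - x| ≤ W → AllDegrees r m

/-- **Theorem.** Let `ε`, `η > 0`, `W ≥ 1` and `d` be given. There are `N` and `c` such that for all `r ≥ N` which are not squares and all
`M` with `c √r ≤ M ≤ exp ((log r) ^ 2 / 64)`: for all functions `F(a, b)` with few coincidences (`Rare d`), bounded by `M / 2`, on
arbitrary finite sets `A`, `B` of at least `η M` elements, the property `Near r W` holds for all but `ε |A| |B|` of the values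
`F(a, b)`.
The least residues modulo `p` of `f(a, b) + g(a) + h(b)` are such a function, bounded by `X = p`, for all primes `p`, all
polynomials `f` modulo `p` with a monomial which contains both variables, arbitrary functions `g` and `h`, and arbitrary sets of
residues. -/
theorem result :
    (∀ ε η W : ℝ, 0 < ε → 0 < η → 1 ≤ W → ∀ d : ℕ, ∃ (N : ℕ) (c : ℝ), ∀ r : ℕ, N ≤ r → ¬ IsSquare r →
      ∀ M : ℕ, c * Real.sqrt r ≤ M → (M : ℝ) ≤ Real.exp (Real.log r ^ 2 / 64) → ∀ (α β : Type) (A : Finset α) (B : Finset β)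
      (F : α → β → ℝ), η * M ≤ A.card → η * M ≤ B.card → (∀ a ∈ A, ∀ b ∈ B, |F a b| ≤ M / 2) → Rare d A B F →
      ({z : α × β | z.1 ∈ A ∧ z.2 ∈ B ∧ ¬ Near r W (F z.1 z.2)}.ncard : ℝ) ≤ ε * (A.card * B.card)) ∧
    ∀ (p : ℕ) [Fact p.Prime] (d : ℕ) (f : MvPolynomial (Fin 2) (ZMod p)), f.totalDegree ≤ d →
      (∃ m ∈ f.support, m 0 ≠ 0 ∧ m 1 ≠ 0) → ∀ (g h : ZMod p → ZMod p) (A B : Finset (ZMod p)),
        Rare d A B (fun a b => (((MvPolynomial.eval ![a, b] f + g a + h b).val : ℕ) : ℝ)) := by
  classical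
  refine ⟨fun ε η W hε hη hW d => ?_, residues⟩
  obtain ⟨ε', hε'⟩ : ∃ ε' : ℝ, ε' = ε ^ 2 * η / (28 * d * (1 + W) + 1) := ⟨_, rfl⟩
  have hd0 : (0 : ℝ) ≤ d := Nat.cast_nonneg d
  have hden : 0 < 28 * (d : ℝ) * (1 + W) + 1 := by positivity
  have hε'0 : 0 < ε' := by rw [hε']; positivity
  obtain ⟨N, c, h⟩ := MostMultiplicities.result ε' hε'0
  refine ⟨max N 1, max c (2 * W + 1), fun r hr hsq M hM1 hM2 α β A B F hA hB hF hR => ?_⟩
  have hr1 : (1 : ℝ) ≤ Real.sqrt r := by
    rw [Real.one_le_sqrt]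
    exact_mod_cast (le_max_right _ _).trans hr
  have hM3 : 2 * W + 1 ≤ M := by
    refine le_trans ?_ hM1
    have h1 : 2 * W + 1 ≤ max c (2 * W + 1) := le_max_right _ _
    nlinarith
  have hM0 : (0 : ℝ) < M := by linarith
  have hbase := h r ((le_max_left _ _).trans hr) hsq M
    (le_trans (mul_le_mul_of_nonneg_right (le_max_left _ _) (Real.sqrt_nonneg _)) hM1) hM2
  have hset : {t : ℕ | t ∈ {m : ℕ | 0 < m ∧ m < M ∧ ¬ AllDegrees r m} ∧ (t : ℝ) ≤ 2 * ((M : ℝ) / 2)} =
      {m : ℕ | 0 < m ∧ m < M ∧ ¬ AllDegrees r m} := by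
    ext t
    simp only [Set.mem_ofPred_eq]
    constructor
    · exact fun h' => h'.1
    · intro h'
      have : (t : ℝ) < M := by exact_mod_cast h'.2.1
      exact ⟨h', by linarith⟩
  have hfin : {m : ℕ | 0 < m ∧ m < M ∧ ¬ AllDegrees r m}.Finite := (Set.finite_Iio M).subset fun n hn => hn.2.1
  have h1 := dense_window (T := ℕ) (fun t => (t : ℝ)) {m : ℕ | 0 < m ∧ m < M ∧ ¬ AllDegrees r m} hW
    (Y := (M : ℝ) / 2) (by linarith) (ε' * M) (by rw [hset]; exact ⟨hfin, hbase⟩) hF hR
  obtain ⟨n, hn⟩ : ∃ n : ℝ, n = ({z : α × β | z.1 ∈ A ∧ z.2 ∈ B ∧ ¬ Near r W (F z.1 z.2)}.ncard : ℝ) := ⟨_, rfl⟩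
  rw [← hn]
  have hn0 : 0 ≤ n := by rw [hn]; exact Nat.cast_nonneg _
  have h2 : n ^ 2 ≤ 28 * d * (ε' * M) * (1 / A.card + W / B.card) * ((A.card : ℝ) * B.card) ^ 2 := by
    refine le_trans ?_ h1
    rw [hn]
    refine pow_le_pow_left₀ (Nat.cast_nonneg _) (Nat.cast_le.2 (Set.ncard_le_ncard ?_ ?_)) 2
    · rintro z ⟨hz1, hz2, hz3⟩
      unfold Near at hz3
      push Not at hz3
      obtain ⟨m, hm1, hm2, hm3⟩ := hz3
      refine ⟨hz1, hz2, m, ⟨hm1, ?_, hm3⟩, hm2⟩
      have h5 := hF _ hz1 _ hz2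
      rw [abs_le] at h5 hm2
      have : (m : ℝ) < M := by linarith [hm2.2, h5.2]
      exact_mod_cast this
    · apply (A ×ˢ B).finite_toSet.subset
      rintro z ⟨hz1, hz2, -⟩
      rw [mem_coe, mem_product]
      exact ⟨hz1, hz2⟩
  have hA0 : (0 : ℝ) < A.card := lt_of_lt_of_le (by positivity) hA
  have hB0 : (0 : ℝ) < B.card := lt_of_lt_of_le (by positivity) hB
  have h3 : 1 / (A.card : ℝ) + W / B.card ≤ (1 + W) / (η * M) := by
    have e1 : 1 / (A.card : ℝ) ≤ 1 / (η * M) := one_div_le_one_div_of_le (by positivity) hA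
    have e2 : W / (B.card : ℝ) ≤ W / (η * M) := div_le_div_of_nonneg_left (by linarith) (by positivity) hB
    calc _ ≤ 1 / (η * M) + W / (η * M) := add_le_add e1 e2
      _ = _ := by rw [← add_div]
  have h4 : n ^ 2 ≤ (ε * (A.card * B.card)) ^ 2 := by
    refine h2.trans ?_
    rw [mul_pow ε ((A.card : ℝ) * B.card) 2]
    apply mul_le_mul_of_nonneg_right _ (by positivity)
    calc 28 * (d : ℝ) * (ε' * M) * (1 / A.card + W / B.card) ≤ 28 * (d : ℝ) * (ε' * M) * ((1 + W) / (η * M)) :=
          mul_le_mul_of_nonneg_left h3 (by positivity)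
      _ = 28 * d * (1 + W) * ε' / η := by field_simp
      _ ≤ ε ^ 2 := by
          rw [hε', div_le_iff₀ hη, mul_div_assoc', div_le_iff₀ hden]
          have : 0 ≤ ε ^ 2 * η := by positivity
          nlinarith
  exact (abs_le_of_sq_le_sq' h4 (by positivity)).2

end Pool.Agent.Results.MP_8707bd_ag.MixedOnDenseSets
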